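import Pool.Agent.Helper1.T1.Goals

/-!
PACKET T1-RAT (MP_d3128a_ag): rational slopes.
-/

set_option autoImplicit false

noncomputable section

namespace Pool.Agent.Helper8.T1.RAT

open Finset

/-- clearing denominators -/
lemma clear_one (L : ℕ) (q : ℚ) (hq : 0 < q) (h : q.den ∣ L) : ∃ a : ℕ, (a : ℚ) = L * q := by
  obtain ⟨m, hm⟩ := h
  refine ⟨m * q.num.toNat, ?_⟩
  have h1 : ((q.num.toNat : ℕ) : ℚ) = (q.num : ℚ) := by
    have h2 : ((q.num.toNat : ℕ) : ℤ) = q.num :=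
      Int.toNat_of_nonneg (Rat.num_pos.mpr hq).le
    exact_mod_cast h2
  have h3 : (q.den : ℚ) * q = q.num := Rat.den_mul_eq_num q
  rw [hm]
  push_cast
  rw [h1, ← h3]
  ring

lemma clear_all (c : ℕ) (r s : Fin c → ℚ) (hr : ∀ l, 0 < r l) (hs : ∀ l, 0 < s l) :
    ∃ (L : ℕ) (a T : Fin c → ℕ), 0 < L ∧ ∀ l, (a l : ℚ) = L * r l ∧ (T l : ℚ) = L * s l := by
  set L : ℕ := ∏ l, ((r l).den * (s l).den) with hL
  have h1 : ∀ l, (r l).den * (s l).den ∣ L := fun l => Finset.dvd_prod_of_mem _ (Finset.mem_univ l)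
  have h2 : ∀ l, ∃ a : ℕ, (a : ℚ) = L * r l := fun l =>
    clear_one L (r l) (hr l) ((Dvd.intro _ rfl).trans (h1 l))
  have h3 : ∀ l, ∃ a : ℕ, (a : ℚ) = L * s l := fun l =>
    clear_one L (s l) (hs l) ((Dvd.intro_left _ rfl).trans (h1 l))
  choose a ha using h2
  choose T hT using h3
  refine ⟨L, a, T, ?_, fun l => ⟨ha l, hT l⟩⟩
  exact Finset.prod_pos fun l _ => Nat.mul_pos (r l).den_pos (s l).den_pos

/-- the choice of the slopes at one node -/
lemma slopes (x R E e η : ℝ) (hR : 0 < R) (hE : E ≤ x) (hRE : R * E ≤ x ^ 2)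
    (h1 : x - E < e) (h2 : e < x) (hη : 0 < η) :
    ∃ α β : ℚ, 0 < α ∧ 0 < β ∧ α ≠ β ∧ (β : ℝ) ≤ x - e ∧ (α : ℝ) ≤ e ∧ E - η < α + β ∧
      R * (α + β) ≤ (e + β) ^ 2 := by
  have ha0 : 0 < e - x + E := by linarith
  have hb0 : 0 < x - e := by linarith
  obtain ⟨α, hα1, hα2⟩ := exists_rat_btwn (show max 0 (e - x + E - η / 2) < e - x + E by
    rw [max_lt_iff]; constructor <;> linarith)
  rw [max_lt_iff] at hα1
  -- the strict inequality at the end point
  have h3 : R * ((α : ℝ) + (x - e)) < (e + (x - e)) ^ 2 := by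
    have : R * ((α : ℝ) + (x - e)) < R * E := by
      apply mul_lt_mul_of_pos_left _ hR
      linarith
    have h4 : e + (x - e) = x := by ring
    rw [h4]
    linarith
  have h5 : ∀ᶠ y in nhdsWithin (x - e) (Set.Iio (x - e)), R * ((α : ℝ) + y) < (e + y) ^ 2 := by
    have hc1 : ContinuousAt (fun y : ℝ => R * ((α : ℝ) + y)) (x - e) := by fun_prop
    have hc2 : ContinuousAt (fun y : ℝ => (e + y) ^ 2) (x - e) := by fun_prop
    exact (hc1.eventually_lt hc2 h3).filter_mono nhdsWithin_le_nhds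
  rw [Filter.eventually_iff, mem_nhdsLT_iff_exists_Ioo_subset] at h5
  obtain ⟨u, hu, hsub⟩ := h5
  rw [Set.mem_Iio] at hu
  set lo : ℝ := max (max 0 (x - e - η / 2)) (max u (if (α : ℝ) < x - e then (α : ℝ) else 0)) with hlo
  have hlo1 : lo < x - e := by
    rw [hlo, max_lt_iff, max_lt_iff, max_lt_iff]
    refine ⟨⟨hb0, by linarith⟩, hu, ?_⟩
    split_ifs with h
    · exact h
    · exact hb0
  obtain ⟨β, hβ1, hβ2⟩ := exists_rat_btwn hlo1
  rw [hlo, max_lt_iff, max_lt_iff, max_lt_iff] at hβ1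
  obtain ⟨⟨hβ3, hβ4⟩, hβ5, hβ6⟩ := hβ1
  refine ⟨α, β, by exact_mod_cast hα1.1, by exact_mod_cast hβ3, ?_, hβ2.le, ?_, ?_, ?_⟩
  · intro h
    rw [h] at hβ6
    split_ifs at hβ6 with h'
    · exact lt_irrefl _ hβ6
    · exact h' hβ2
  · linarith
  · linarith [hα1.2]
  · have h9 : R * ((α : ℝ) + (β : ℝ)) < (e + (β : ℝ)) ^ 2 := hsub ⟨hβ5, hβ2⟩
    exact h9.le

theorem t : Pool.Agent.Helper1.T1.S_RAT := by
  intro c k d V R E e hk hd H hsum
  have hk' : (0 : ℝ) < k := by exact_mod_cast hk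
  have hd' : (0 : ℝ) < d := by exact_mod_cast hd
  set t : ℝ := (d : ℝ) / k with ht
  have ht0 : 0 < t := div_pos hd' hk'
  set η : ℝ := ((∑ l, E l) - (k : ℝ) ^ 2) / (c + 1) with hη
  have hη0 : 0 < η := div_pos (by linarith) (by positivity)
  have hkey : ∀ l, ∃ α β : ℚ, 0 < α ∧ 0 < β ∧ α ≠ β ∧ (β : ℝ) ≤ V l / t - e l ∧ (α : ℝ) ≤ e l ∧
      E l - η < α + β ∧ R l * (α + β) ≤ (e l + β) ^ 2 := by
    intro l
    obtain ⟨h1, h2, h3, h4, h5⟩ := H l
    have h6 : E l ≤ V l / t := by rwa [le_div_iff₀ ht0]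
    have h8 : R l * E l ≤ (V l / t) ^ 2 := by
      rw [div_pow, le_div_iff₀ (by positivity)]
      exact h3
    exact slopes (V l / t) (R l) (E l) (e l) η h1 h6 h8 h4 h5 hη0
  choose α β hα hβ hne h1 h2 h3 h4 using hkey
  have hαβ : ∀ l, 0 < α l + β l := fun l => add_pos (hα l) (hβ l)
  obtain ⟨L, a, T, hL, haT⟩ := clear_all c (fun l => α l / (α l + β l))
    (fun l => α l * β l / (α l + β l)) (fun l => div_pos (hα l) (hαβ l))
    (fun l => div_pos (mul_pos (hα l) (hβ l)) (hαβ l))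
  have hLq : (0 : ℚ) < L := by exact_mod_cast hL
  have ha : ∀ l, (a l : ℚ) = L * (α l / (α l + β l)) := fun l => (haT l).1
  have hT : ∀ l, (T l : ℚ) = L * (α l * β l / (α l + β l)) := fun l => (haT l).2
  have ha0 : ∀ l, 0 < a l := by
    intro l
    have : (0 : ℚ) < a l := by
      rw [ha l]; exact mul_pos hLq (div_pos (hα l) (hαβ l))
    exact_mod_cast this
  have hT0 : ∀ l, 0 < T l := by
    intro l
    have : (0 : ℚ) < T l := by
      rw [hT l]; exact mul_pos hLq (div_pos (mul_pos (hα l) (hβ l)) (hαβ l))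
    exact_mod_cast this
  have hLa : ∀ l, (L : ℚ) - a l = L * (β l / (α l + β l)) := by
    intro l
    have := (hαβ l).ne'
    rw [ha l]
    field_simp
    ring
  have haL : ∀ l, a l < L := by
    intro l
    have h5 : (0 : ℚ) < (L : ℚ) - a l := by
      rw [hLa l]; exact mul_pos hLq (div_pos (hβ l) (hαβ l))
    have h6 : (a l : ℚ) < L := by linarith
    exact_mod_cast h6
  have hcast : ∀ l, (((L - a l : ℕ) : ℕ) : ℚ) = (L : ℚ) - a l := fun l => by
    rw [Nat.cast_sub (haL l).le]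
  have hb : ∀ l, (T l : ℚ) / a l = β l := by
    intro l
    have := (hαβ l).ne'
    have h5 := (hα l).ne'
    have h6 := hLq.ne'
    rw [hT l, ha l]
    field_simp
  have hal : ∀ l, (T l : ℚ) / ((L - a l : ℕ) : ℚ) = α l := by
    intro l
    have := (hαβ l).ne'
    have h5 := (hβ l).ne'
    have h6 := hLq.ne'
    rw [hcast, hT l, hLa l]
    field_simp
  have hbR : ∀ l, (T l : ℝ) / a l = β l := by
    intro l
    have h5 : (((T l : ℚ) / a l : ℚ) : ℝ) = ((β l : ℚ) : ℝ) := by rw [hb l]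
    push_cast at h5
    exact h5
  have haR : ∀ l, (T l : ℝ) / ((L - a l : ℕ) : ℝ) = α l := by
    intro l
    have h5 : (((T l : ℚ) / ((L - a l : ℕ) : ℚ) : ℚ) : ℝ) = ((α l : ℚ) : ℝ) := by rw [hal l]
    rw [Rat.cast_div, Rat.cast_natCast, Rat.cast_natCast] at h5
    exact h5
  refine ⟨L, a, T, ?_, ?_, ?_⟩
  · intro l
    refine ⟨ha0 l, haL l, ?_, hT0 l⟩
    intro h
    apply hne l
    have h5 : (2 : ℚ) * a l = L := by exact_mod_cast h
    have h6 : (L : ℚ) - a l = a l := by linarith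
    rw [hLa l, ha l] at h6
    have h7 := mul_left_cancel₀ hLq.ne' h6
    rw [div_left_inj' (hαβ l).ne'] at h7
    exact h7.symm
  · have h5 : ∑ l, ((T l : ℝ) / a l + (T l : ℝ) / ((L - a l : ℕ) : ℝ)) =
        ∑ l, ((α l : ℝ) + β l) := by
      apply Finset.sum_congr rfl
      intro l _
      rw [hbR, haR]
      ring
    rw [h5]
    have h6 : ∑ l, (E l - η) ≤ ∑ l, ((α l : ℝ) + β l) :=
      Finset.sum_le_sum fun l _ => (h3 l).le
    rw [Finset.sum_sub_distrib, Finset.sum_const, Finset.card_univ, Fintype.card_fin,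
      nsmul_eq_mul] at h6
    have h7 : η * (c + 1) = (∑ l, E l) - (k : ℝ) ^ 2 := by
      rw [hη]
      field_simp
    nlinarith
  · intro l
    rw [hbR, haR]
    refine ⟨?_, h2 l, ?_⟩
    · have h5 := h1 l
      have h6 : (e l : ℝ) + β l ≤ V l / t := by linarith
      rwa [le_div_iff₀ ht0] at h6
    · have := h4 l
      rw [add_comm (β l : ℝ)]
      exact this

end Pool.Agent.Helper8.T1.RAT
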