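import Pool.Agent.Helper1.T1.Goals4
import Pool.Agent.Helper1.T1.EMPT2L

/-!
PROJECT T1, regular side: the slopes (S_SLOPR).
-/

set_option autoImplicit false

namespace Pool.Agent.Helper8.T1.SLOPR

open Pool.Agent.Helper1.T1

/-- two different rationals in given intervals -/
theorem two (a₁ a₂ b₁ b₂ : ℝ) (ha : a₁ < a₂) (hb : b₁ < b₂) :
    ∃ α β : ℚ, a₁ < α ∧ (α : ℝ) < a₂ ∧ b₁ < β ∧ (β : ℝ) < b₂ ∧ α ≠ β := by
  obtain ⟨α, h1, h2⟩ := exists_rat_btwn ha
  have hlo : (if (α : ℝ) < b₂ then max b₁ α else b₁) < b₂ := by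
    split_ifs with h
    · exact max_lt hb h
    · exact hb
  obtain ⟨β, h3, h4⟩ := exists_rat_btwn hlo
  refine ⟨α, β, h1, h2, ?_, h4, ?_⟩
  · split_ifs at h3 with h
    · exact (le_max_left _ _).trans_lt h3
    · exact h3
  · intro h
    rw [← h] at h3 h4
    rw [if_pos h4] at h3
    exact absurd ((le_max_right _ _).trans_lt h3) (lt_irrefl _)

theorem t : S_SLOPR := by
  intro c k d G V H e hk hl hsum
  have hk0 : (0 : ℝ) < k := by
    have : 0 < k := hk
    exact_mod_cast this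
  obtain ⟨Q, hQ⟩ : ∃ Q : ℝ, Q = (d : ℝ) + 3 := ⟨_, rfl⟩
  have hQ0 : 0 < Q := by rw [hQ]; positivity
  simp only [← hQ] at hl hsum ⊢
  obtain ⟨y, hy⟩ : ∃ y : Fin c → ℝ, ∀ l, y l = k * V l / Q := ⟨_, fun l => rfl⟩
  obtain ⟨x, hx⟩ : ∃ x : Fin c → ℝ, ∀ l, x l = k * H l / Q := ⟨_, fun l => rfl⟩
  have hyQ : ∀ l, y l * (Q / k) = V l := by
    intro l
    rw [hy]
    field_simp
  have hxQ : ∀ l, x l * (Q / k) = H l := by
    intro l
    rw [hx]
    field_simp
  have hx1 : ∀ l, x l < 1 := by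
    intro l
    rw [hx, div_lt_one hQ0]
    exact (hl l).2.2.1
  have hx0 : ∀ l, 0 < x l := by
    intro l
    rw [hx]
    exact div_pos (mul_pos hk0 (hl l).2.1) hQ0
  have hy0 : ∀ l, 0 < y l := by
    intro l
    rw [hy]
    exact div_pos (mul_pos hk0 (hl l).1) hQ0
  have hey : ∀ l, (e l : ℝ) < y l := by
    intro l
    rw [hy, lt_div_iff₀ hQ0]
    exact (hl l).2.2.2.2
  have hye : ∀ l, y l * (1 - x l) < e l := by
    intro l
    have h1 : y l * (1 - x l) = k * V l * (Q - k * H l) / Q ^ 2 := by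
      rw [hy, hx]
      field_simp
    rw [h1, div_lt_iff₀ (by positivity)]
    exact (hl l).2.2.2.1
  have hxy : ∑ l, x l * y l < (k : ℝ) ^ 2 := by
    have h1 : ∀ l, x l * y l = (k : ℝ) ^ 2 / Q ^ 2 * (V l * H l) := by
      intro l
      rw [hy, hx]
      field_simp
    simp only [h1]
    rw [← Finset.mul_sum, div_mul_eq_mul_div, div_lt_iff₀ (by positivity)]
    exact mul_lt_mul_of_pos_left hsum (by positivity)
  obtain ⟨η, hη⟩ : ∃ η : ℝ, η = ((k : ℝ) ^ 2 - ∑ l, x l * y l) / (2 * (c + G) + 1) := ⟨_, rfl⟩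
  have hη0 : 0 < η := by
    rw [hη]
    exact div_pos (by linarith) (by positivity)
  have hηs : (2 * ((c : ℝ) + G) + 1) * η = (k : ℝ) ^ 2 - ∑ l, x l * y l := by
    rw [hη, mul_div_cancel₀]
    positivity
  have hch : ∀ l, ∃ p : ℚ × ℚ, (e l : ℝ) - y l * (1 - x l) < p.1 ∧
      (p.1 : ℝ) < min (e l : ℝ) ((e l : ℝ) - y l * (1 - x l) + η) ∧
      y l - e l < p.2 ∧ (p.2 : ℝ) < y l - e l + η ∧ p.1 ≠ p.2 := by
    intro l
    have h1 : (e l : ℝ) - y l * (1 - x l) < min (e l : ℝ) ((e l : ℝ) - y l * (1 - x l) + η) := by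
      rw [lt_min_iff]
      have := mul_pos (hy0 l) (sub_pos.2 (hx1 l))
      exact ⟨by linarith, by linarith⟩
    obtain ⟨α, β, h⟩ := two _ _ (y l - e l) (y l - e l + η) h1 (by linarith)
    exact ⟨(α, β), h⟩
  choose p hp using hch
  obtain ⟨α', β', hα1, hα2, hβ1, hβ2, hab⟩ := two 0 η 0 η hη0 hη0
  obtain ⟨αx, hαx⟩ : ∃ f : Fin (c + 1) → ℚ, f = Fin.snoc (fun l => (p l).1) α' := ⟨_, rfl⟩
  obtain ⟨βx, hβx⟩ : ∃ f : Fin (c + 1) → ℚ, f = Fin.snoc (fun l => (p l).2) β' := ⟨_, rfl⟩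
  have hαl : ∀ l : Fin c, αx l.castSucc = (p l).1 := fun l => by
    rw [hαx, Fin.snoc_castSucc]
  have hβl : ∀ l : Fin c, βx l.castSucc = (p l).2 := fun l => by
    rw [hβx, Fin.snoc_castSucc]
  have hα' : αx (Fin.last c) = α' := by rw [hαx, Fin.snoc_last]
  have hβ' : βx (Fin.last c) = β' := by rw [hβx, Fin.snoc_last]
  obtain ⟨L, a, T, haT, hs⟩ := EMPT2L.lat αx βx
    (by
      intro l
      refine Fin.lastCases ?_ (fun i => ?_) l
      · rw [hα']
        exact_mod_cast hα1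
      · rw [hαl]
        have h1 := (hp i).1
        have h2 := hye i
        have h3 : (0 : ℝ) < (p i).1 := by linarith
        exact_mod_cast h3)
    (by
      intro l
      refine Fin.lastCases ?_ (fun i => ?_) l
      · rw [hβ']
        exact_mod_cast hβ1
      · rw [hβl]
        have h1 := (hp i).2.2.1
        have h2 := hey i
        have h3 : (0 : ℝ) < (p i).2 := by linarith
        exact_mod_cast h3)
    (by
      intro l
      refine Fin.lastCases ?_ (fun i => ?_) l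
      · rw [hα', hβ']
        exact hab
      · rw [hαl, hβl]
        exact (hp i).2.2.2.2)
  refine ⟨L, a (Fin.last c), T (Fin.last c), fun l => a l.castSucc, fun l => T l.castSucc,
    haT _, fun l => haT _, ?_, fun l => ?_⟩
  · simp only [(hs _).1, (hs _).2, hαl, hβl, hα', hβ']
    have h1 : ∑ l, (((p l).2 : ℝ) + ((p l).1 : ℝ)) ≤ ∑ l, (x l * y l + 2 * η) := by
      apply Finset.sum_le_sum
      intro l _
      have h2 := ((hp l).2.1.trans_le (min_le_right _ _)).le
      have h3 := (hp l).2.2.2.1.le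
      have h4 : (e l : ℝ) - y l * (1 - x l) + η + (y l - e l + η) = x l * y l + 2 * η := by ring
      linarith
    have h0 : ∑ l : Fin c, (x l * y l + 2 * η) = ∑ l, x l * y l + c * (2 * η) := by
      rw [Finset.sum_add_distrib, Finset.sum_const, Finset.card_univ, Fintype.card_fin,
        nsmul_eq_mul]
    rw [h0] at h1
    have h2 : (G : ℝ) * ((β' : ℝ) + α') ≤ G * (2 * η) := by
      apply mul_le_mul_of_nonneg_left _ (Nat.cast_nonneg _)
      linarith
    have h3 : (2 * ((c : ℝ) + G) + 1) * η = c * (2 * η) + G * (2 * η) + η := by ring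
    linarith
  · have hpl := hp l
    simp only [(hs _).1, (hs _).2, hαl, hβl]
    have hQk : 0 < Q / k := div_pos hQ0 hk0
    refine ⟨hpl.2.1.trans_le (min_le_left _ _), ?_, ?_⟩
    · rw [← hyQ l]
      apply mul_lt_mul_of_pos_right _ hQk
      linarith [hpl.2.2.1]
    · have h1 : H l * ((e l : ℝ) + (p l).2) = (x l * ((e l : ℝ) + (p l).2)) * (Q / k) := by
        rw [← hxQ l]
        ring
      rw [h1]
      apply mul_lt_mul_of_pos_right _ hQk
      have h2 : x l * (((p l).2 : ℝ) - (y l - e l)) < ((p l).2 : ℝ) - (y l - e l) := by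
        apply mul_lt_of_lt_one_left _ (hx1 l)
        linarith [hpl.2.2.1]
      have h3 := hpl.1
      have h4 : x l * ((e l : ℝ) + (p l).2) = x l * y l + x l * (((p l).2 : ℝ) - (y l - e l)) := by
        ring
      have h5 : y l * (1 - x l) = y l - x l * y l := by ring
      linarith

end Pool.Agent.Helper8.T1.SLOPR
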