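import Pool.Agent.Helper1.T1.Goals5
import Pool.Agent.Helper1.T1.EMPT2L
import Pool.Agent.Helper8.T1.SLOPR

/-!
PROJECT T1, regular side: the slopes, chords in the direction (p, q) (S_SLOPP).
-/

set_option autoImplicit false

namespace Pool.Agent.Helper8.T1.SLOPP

open Pool.Agent.Helper1.T1

theorem t : S_SLOPP := by
  intro c k d G V H p q hk hl hsum
  have hk0 : (0 : ℝ) < k := by
    have : 0 < k := hk
    exact_mod_cast this
  obtain ⟨Q, hQ⟩ : ∃ Q : ℝ, Q = (d : ℝ) + 3 := ⟨_, rfl⟩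
  have hQ0 : 0 < Q := by rw [hQ]; positivity
  simp only [← hQ] at hl hsum ⊢
  obtain ⟨y, hy⟩ : ∃ y : Fin c → ℝ, ∀ l, y l = k * V l / Q := ⟨_, fun l => rfl⟩
  obtain ⟨x, hx⟩ : ∃ x : Fin c → ℝ, ∀ l, x l = k * H l / Q := ⟨_, fun l => rfl⟩
  have hp0 : ∀ l, (0 : ℝ) < p l := by
    intro l
    have : 0 < p l := (hl l).2.2.1
    exact_mod_cast this
  have hyQ : ∀ l, y l * (Q / k) = V l := by
    intro l
    rw [hy]
    field_simp
  have hxQ : ∀ l, x l * (Q / k) = H l := by
    intro l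
    rw [hx]
    field_simp
  have hx1 : ∀ l, p l * x l < 1 := by
    intro l
    rw [hx, ← mul_div_assoc, div_lt_one hQ0]
    exact (hl l).2.2.2.1
  have hx0 : ∀ l, 0 < x l := by
    intro l
    rw [hx]
    exact div_pos (mul_pos hk0 (hl l).2.1) hQ0
  have hy0 : ∀ l, 0 < y l := by
    intro l
    rw [hy]
    exact div_pos (mul_pos hk0 (hl l).1) hQ0
  have hey : ∀ l, (q l : ℝ) < y l := by
    intro l
    rw [hy, lt_div_iff₀ hQ0]
    exact (hl l).2.2.2.2.2
  have hye : ∀ l, y l * (1 - p l * x l) < q l := by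
    intro l
    have h1 : y l * (1 - p l * x l) = k * V l * (Q - p l * (k * H l)) / Q ^ 2 := by
      rw [hy, hx]
      field_simp
    rw [h1, div_lt_iff₀ (by positivity)]
    exact (hl l).2.2.2.2.1
  have hxy : ∑ l, x l * y l < (k : ℝ) ^ 2 := by
    have h1 : ∀ l, x l * y l = (k : ℝ) ^ 2 / Q ^ 2 * (V l * H l) := by
      intro l
      rw [hy, hx]
      field_simp
    simp only [h1]
    rw [← Finset.mul_sum, div_mul_eq_mul_div, div_lt_iff₀ (by positivity)]
    exact mul_lt_mul_of_pos_left hsum (by positivity)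
  obtain ⟨A, hA⟩ : ∃ A : Fin c → ℝ, ∀ l, A l = (q l - y l * (1 - p l * x l)) / p l :=
    ⟨_, fun l => rfl⟩
  obtain ⟨B, hB⟩ : ∃ B : Fin c → ℝ, ∀ l, B l = (y l - q l) / p l := ⟨_, fun l => rfl⟩
  have hA0 : ∀ l, 0 < A l := by
    intro l
    rw [hA]
    exact div_pos (sub_pos.2 (hye l)) (hp0 l)
  have hB0 : ∀ l, 0 < B l := by
    intro l
    rw [hB]
    exact div_pos (sub_pos.2 (hey l)) (hp0 l)
  have hAB : ∀ l, A l + B l = x l * y l := by
    intro l
    have := (hp0 l).ne'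
    rw [hA, hB]
    field_simp
    ring
  have hAq : ∀ l, A l < q l / p l := by
    intro l
    rw [hA]
    apply div_lt_div_of_pos_right _ (hp0 l)
    have := mul_pos (hy0 l) (sub_pos.2 (hx1 l))
    linarith
  have hBy : ∀ l, (q l : ℝ) + p l * B l = y l := by
    intro l
    have := (hp0 l).ne'
    rw [hB]
    field_simp
    ring
  obtain ⟨η, hη⟩ : ∃ η : ℝ, η = ((k : ℝ) ^ 2 - ∑ l, x l * y l) / (2 * (c + G) + 1) := ⟨_, rfl⟩
  have hη0 : 0 < η := by
    rw [hη]
    exact div_pos (by linarith) (by positivity)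
  have hηs : (2 * ((c : ℝ) + G) + 1) * η = (k : ℝ) ^ 2 - ∑ l, x l * y l := by
    rw [hη, mul_div_cancel₀]
    positivity
  have hch : ∀ l, ∃ s : ℚ × ℚ, A l < s.1 ∧ (s.1 : ℝ) < min ((q l : ℝ) / p l) (A l + η) ∧
      B l < s.2 ∧ (s.2 : ℝ) < B l + η ∧ s.1 ≠ s.2 := by
    intro l
    have h1 : A l < min ((q l : ℝ) / p l) (A l + η) := by
      rw [lt_min_iff]
      exact ⟨hAq l, by linarith⟩
    obtain ⟨α, β, h⟩ := SLOPR.two _ _ (B l) (B l + η) h1 (by linarith)
    exact ⟨(α, β), h⟩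
  choose s hs using hch
  obtain ⟨α', β', hα1, hα2, hβ1, hβ2, hab⟩ := SLOPR.two 0 η 0 η hη0 hη0
  obtain ⟨αx, hαx⟩ : ∃ f : Fin (c + 1) → ℚ, f = Fin.snoc (fun l => (s l).1) α' := ⟨_, rfl⟩
  obtain ⟨βx, hβx⟩ : ∃ f : Fin (c + 1) → ℚ, f = Fin.snoc (fun l => (s l).2) β' := ⟨_, rfl⟩
  have hαl : ∀ l : Fin c, αx l.castSucc = (s l).1 := fun l => by
    rw [hαx, Fin.snoc_castSucc]
  have hβl : ∀ l : Fin c, βx l.castSucc = (s l).2 := fun l => by
    rw [hβx, Fin.snoc_castSucc]
  have hα' : αx (Fin.last c) = α' := by rw [hαx, Fin.snoc_last]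
  have hβ' : βx (Fin.last c) = β' := by rw [hβx, Fin.snoc_last]
  obtain ⟨L, a, T, haT, hTs⟩ := EMPT2L.lat αx βx
    (by
      intro l
      refine Fin.lastCases ?_ (fun i => ?_) l
      · rw [hα']
        exact_mod_cast hα1
      · rw [hαl]
        have h3 : (0 : ℝ) < (s i).1 := (hA0 i).trans (hs i).1
        exact_mod_cast h3)
    (by
      intro l
      refine Fin.lastCases ?_ (fun i => ?_) l
      · rw [hβ']
        exact_mod_cast hβ1
      · rw [hβl]
        have h3 : (0 : ℝ) < (s i).2 := (hB0 i).trans (hs i).2.2.1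
        exact_mod_cast h3)
    (by
      intro l
      refine Fin.lastCases ?_ (fun i => ?_) l
      · rw [hα', hβ']
        exact hab
      · rw [hαl, hβl]
        exact (hs i).2.2.2.2)
  refine ⟨L, a (Fin.last c), T (Fin.last c), fun l => a l.castSucc, fun l => T l.castSucc,
    haT _, fun l => haT _, ?_, fun l => ?_⟩
  · simp only [(hTs _).1, (hTs _).2, hαl, hβl, hα', hβ']
    have h1 : ∑ l, (((s l).2 : ℝ) + ((s l).1 : ℝ)) ≤ ∑ l, (x l * y l + 2 * η) := by
      apply Finset.sum_le_sum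
      intro l _
      have h2 := ((hs l).2.1.trans_le (min_le_right _ _)).le
      have h3 := (hs l).2.2.2.1.le
      have h4 := hAB l
      linarith
    have h0 : ∑ l : Fin c, (x l * y l + 2 * η) = ∑ l, x l * y l + c * (2 * η) := by
      rw [Finset.sum_add_distrib, Finset.sum_const, Finset.card_univ, Fintype.card_fin,
        nsmul_eq_mul]
    rw [h0] at h1
    have h2 : (G : ℝ) * ((β' : ℝ) + α') ≤ G * (2 * η) := by
      apply mul_le_mul_of_nonneg_left _ (Nat.cast_nonneg _)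
      linarith
    have h3 : (2 * ((c : ℝ) + G) + 1) * η = c * (2 * η) + G * (2 * η) + η := by ring
    linarith
  · have hsl := hs l
    simp only [(hTs _).1, (hTs _).2, hαl, hβl]
    have hQk : 0 < Q / k := div_pos hQ0 hk0
    refine ⟨?_, ?_, ?_⟩
    · have h1 := hsl.2.1.trans_le (min_le_left _ _)
      rw [lt_div_iff₀ (hp0 l)] at h1
      linarith
    · rw [← hyQ l]
      apply mul_lt_mul_of_pos_right _ hQk
      rw [← hBy l]
      have := mul_lt_mul_of_pos_left hsl.2.2.1 (hp0 l)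
      linarith
    · have h1 : H l * ((q l : ℝ) + p l * (s l).2) =
          (x l * ((q l : ℝ) + p l * (s l).2)) * (Q / k) := by
        rw [← hxQ l]
        ring
      rw [h1]
      apply mul_lt_mul_of_pos_right _ hQk
      have h2 : (p l * x l) * (((s l).2 : ℝ) - B l) < ((s l).2 : ℝ) - B l := by
        apply mul_lt_of_lt_one_left _ (hx1 l)
        linarith [hsl.2.2.1]
      have h3 := hsl.1
      have h4 : x l * ((q l : ℝ) + p l * (s l).2) =
          x l * ((q l : ℝ) + p l * B l) + (p l * x l) * (((s l).2 : ℝ) - B l) := by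
        ring
      rw [hBy l] at h4
      have h5 := hAB l
      linarith

end Pool.Agent.Helper8.T1.SLOPP
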